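import Pool.Agent.N133.TB.MgD

/-!
MP_1149f4_ag, Q1: stable tensors on the cotangent bundle twisted by a divisor `M`, and the adjoint
divisor `K_X + Δ + n M`.

`NormalModel y` (`Pool/Agent/Y172/Defs.lean`): `y` is the generic point, in homogeneous coordinates,
of a normal projective variety `X` with function field `K`; `IsPrimeDivisor y P` says that the
valuation `P` of `K` is a prime divisor of `X`. Divisors are given by their multiplicities.
`IsPluri 1 η`: `η` is a rational `n`-form on `X`; `OrdEq P η c`: its order along `P` is `c`. So `κ` is
a canonical divisor of `X` and `κ + Δ + n • M` is the divisor `K_X + Δ + n M`.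

`IsTensorV y Δ L T` (`Pool/Agent/N133/TB/TwA.lean`): the `K`-multilinear form `T` on the rational
vector fields is a tensor differential of `(X, Δ)` with values in the divisor `L`: if the vector
fields `D j` are regular along the prime divisor `P` and, for `j` not in `S`, tangent to `P`, then
`T D` has order at least `- (|S| Δ P + L P)` along `P`. So for `L = m M`, where `m` is the degree of
`T`, it is a section of `(Ω¹ (log Δ) ⊗ O (M)) ^ ⊗ m`. `FunSec y L f`: `f` is a section of `L`,
`div f + L ≥ 0`.

`coef T E`: the coefficients of the `T i` in the frame `E`; `act A t`: the family in the basis given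
by the rows of the matrix `A`; `StableFam t`: `t ≠ 0`, and in no basis do all coefficients of negative
weight vanish, for any integral weights of sum `0` which are not all `0` (stability for the group
`SL n`, by the criterion of Hilbert and Mumford). `ratioField y D`: the field generated by the
quotients of two sections of one positive multiple of `D`; its transcendence degree over `ℂ` is the
Iitaka dimension of `D`.
-/

set_option autoImplicit false

namespace Pool.Agent.Results.MP_1149f4_ag.AdjointTensors

open FF Pool.Agent.W602.GT Pool.Agent.Y172 Pool.Agent.Y174 Pool.Agent.N133.TB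

/-- Let `X` be a normal projective variety of dimension `n ≥ 1`, `Δ` and `M` any `ℚ`-divisors on `X`
and `T i`, `i ∈ ι`, finitely many sections of the bundles `(Ω¹ (log Δ) ⊗ O (M)) ^ ⊗ (m i)`,
`m i ≥ 1`, which are together stable at the generic point of `X`. Then a multiple
`e (K_X + Δ + n M)`, `e ≥ 1`, has a nonzero section, and in a suitable basis of the rational vector
fields over the algebraic closure of `K` all coefficients of the `T i` are algebraic over the field
generated by the quotients of sections of the multiples of `K_X + Δ + n M`. So the Iitaka dimension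
of `K_X + Δ + n M` is nonnegative and at least the number of moduli of the family `T i` at the general
point of `X`. -/
theorem result {K : Type} [Field K] [Algebra ℂ K] {n N : ℕ} {y : Fin (N + 1) → K}
    (hy : NormalModel y) (hn : Algebra.trdeg ℂ K = n) (hn1 : 1 ≤ n)
    {Δ κ M : Place ℂ K → ℚ} {η : (Fin n → Derivation ℂ K K) → K} (hη : IsPluri 1 η) (hη0 : η ≠ 0)
    (hκ : ∀ P, IsPrimeDivisor y P → OrdEq P η (κ P)) {ι : Type} [Finite ι] {m : ι → ℕ}
    (hm : ∀ i, 1 ≤ m i)
    {T : (i : ι) → MultilinearMap K (fun _ : Fin (m i) => Derivation ℂ K K) K}
    (hT : ∀ i, IsTensorV y Δ (m i • M) (T i))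
    {E : Fin n → Derivation ℂ K K} (hE : LinearIndependent K E) (hst : StableFam (coef T E)) :
    (∃ e : ℕ, 1 ≤ e ∧ ∃ f, f ≠ 0 ∧ FunSec y (e • (κ + Δ + n • M)) f) ∧
    ∃ A : Matrix (Fin n) (Fin n) (AlgebraicClosure K), A.det ≠ 0 ∧ ∀ i J,
      IsAlgebraic (ratioField y (κ + Δ + n • M)) (act A (coef T E) i J) :=
  tm_stable hy hn hn1 hη hη0 hκ hm hT hE hst

end Pool.Agent.Results.MP_1149f4_ag.AdjointTensors
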