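import Pool.Agent.Y221.CF.Abu
import Pool.Agent.TH466.QG.Top
import Pool.Agent.N133.GA

/-!
MP_1149f4_ag, Q1: generalised abundance for all projective manifolds which are birational to
images, under rational maps of bounded degree, of the components of
projective varieties given by sums of few high powers.

`Psef k L w (fun _ => False)`: the canonical class is pseudo-effective. The projective manifold `M`
is given by the set `D` of its prime divisors, which are places of the function field. `PsefSub`:
`m A - K_M` is pseudo-effective, and `BigDiv`: `A` is big, where the divisor `A` has the multiplicity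
`a v` along `v` (both are defined by sections, `Pool/Agent/N133/GA.lean`). If `A` and `m A - K_M` are
nef and `A` is big, then `(m + 1) A - K_M` is nef and big, and `A` is semiample by the base point free
theorem.
-/

set_option autoImplicit false
set_option linter.overlappingInstances false

namespace Pool.Agent.Results.MP_1149f4_ag.DominatedGenAbundance

open Pool.Agent.W602.GT (GeneralType Psef KodGe Ruled HighPowers SubVar IsComponent Divisorial)
open Pool.Agent.W619.PQ (IsUniruled)
open Pool.Agent.N133.GA (PsefSub BigDiv)

/-- Let `V` be an irreducible component, of dimension `w ≥ 1`, of a projective variety given by sums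
of at most `s` powers of linear forms, or by forms with at most `s` monomials and divisible
exponents, and let the exponents be at least `N ≥ r w (s + 4) (s - 1) (s - 2) / 2`, with the function
field `K`. Let `L` be a subfield of `K` with `[K : L] ≤ r`: the function field of the image of `V`
under an arbitrary dominant rational map of degree at most `r`. Let `M` be a projective manifold with this function
field, with pseudo-effective canonical class, let `A` be a divisor on `M` and let
`m A - K_M` be pseudo-effective for some `m ≥ 1` (for instance `A` and `m A - K_M` nef). Then `A` is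
big. -/
theorem result {k : Type} [Field k] [CharZero k] [IsAlgClosed k] {n : ℕ} {ι : Type}
    {F : ι → MvPolynomial (Fin (n + 1)) k} {s N w r : ℕ} (hF : HighPowers s N F) (hN1 : 1 ≤ N)
    (hw : 1 ≤ w) (hN : r * (w * ((s + 4) * ((s - 1) * (s - 2) / 2))) ≤ N) {K L : Type} [Field K]
    [Field L] [Algebra k K] [Algebra k L] [Algebra L K] [IsScalarTower k L K]
    [FiniteDimensional L K] {y : Fin (n + 1) → K} (hy : SubVar F K w y)
    (hcomp : IsComponent F y) (hr : Module.finrank L K ≤ r) :
    Psef k L w (fun _ => False) →
      ∀ D : FF.Place k L → Prop, (∀ v, D v → Divisorial w v) →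
      ∀ (a : FF.Place k L → ℤ) (m : ℕ), 1 ≤ m → PsefSub k w D m a → BigDiv k w D a := by
  obtain ⟨h1, h2⟩ := Pool.Agent.Y221.CF.abu_comp hF hN1 hw hN hy hcomp hr
  have hessK : Algebra.EssFiniteType k K := Pool.Agent.TH466.QG.SubVar.ess hy
  have hess : Algebra.EssFiniteType k L := Pool.Agent.TH466.QG.ess_below (K := K)
  have e1 : Psef k L w (fun _ => False) ↔ GeneralType k L w := h1.out 0 2
  intro hP D hD a m hm1 hps
  exact Pool.Agent.N133.GA.big_of_psefSub (e1.1 hP) hD hm1 hps

end Pool.Agent.Results.MP_1149f4_ag.DominatedGenAbundance
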