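import Pool.Agent.N115.JS.Def
import Pool.Agent.N133.GA

/-!
MP_1149f4_ag, Q1 (Lazić, Peternell): generalised abundance for the projective varieties `M` with
multi-valued maps to the varieties of the vectors whose `m`-th powers, for instance whose squares,
are the values of a polynomial of degree at most `n` at given constants, for their subvarieties
through a general point, and for the base of the fibration defined by these maps.

`Corr k L a n r` (`Pool/Agent/N115/JS/Cor.lean`): a rational map with at most `r` values (with
arbitrary branching) from the variety `M` with function field `L` to the variety `X_m` of the points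
`x` of `P^N` such that `x i ^ m = P (a i)` for a polynomial `P` of degree at most `n`, given by a
point `y` of `X_m` over an extension `E` of `L` of degree at most `r`; its polynomial is
`q ^ m * H`, where `H` has no `m`-fold factors. `red` is the reduced map with the coordinates
`y i / q (a i)`, `values` are the conjugates of the ratios of its coordinates. `baseField f` is the
function field of the base `M₀` of the fibration `M ⇢ M₀` which is defined by the family `f`: the
functions on `M` which are algebraic over all these values.

`PsefSub k w D m b`: `m A - K_X` is pseudo-effective, `BigDiv k w D b`: `A` is big, where `D` is the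
set of the prime divisors of the projective manifold `X` of dimension `w`, and the divisor `A` has
the multiplicity `b v` along `v` (both are defined by sections, `Pool/Agent/N133/GA.lean` of
helper133). `SubOf k ξ z`: `z` is the generic point of a closed subvariety of the variety with the
generic point `ξ`. The parts were written by the helpers 115, 966, 835, 701, 664, 603, 849, 530, 133.
-/

set_option autoImplicit false

namespace Pool.Agent.Results.MP_1149f4_ag.MultivaluedGenAbundance

open Pool.Agent.W602.GT (GeneralType coords val IsForm Divisorial)
open Pool.Agent.TH466.QG (StronglyGeneral SubOf)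
open Pool.Agent.N133.GA (PsefSub BigDiv)
open Pool.Agent.N115.JS

/-- For all projective manifolds `X` with function field `K` (of dimension `w`; `D` is the set of the
prime divisors of `X`), all divisors `A` on `X` and all `m ≥ 1` such that `m A - K_X` is
pseudo-effective, `A` is big. If `A` and `m A - K_X` are nef, then `A` is semiample by the base point
free theorem: `(m + 1) A - K_X` is nef and big. -/
def GenAbundance (k : Type) [Field k] (K : Type) [Field K] [Algebra k K] (w : ℕ) : Prop :=
  ∀ D : FF.Place k K → Prop, (∀ v, D v → Divisorial w v) →
    ∀ (b : FF.Place k K → ℤ) (m : ℕ), 1 ≤ m → PsefSub k w D m b → BigDiv k w D b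

/-- The same for the variety with the generic point `ξ` and function field `L`, and for all its
closed subvarieties of positive dimension which are not contained in a certain proper closed
subset. -/
def StrongGenAbundance (k : Type) [Field k] {L : Type} [Field L] [Algebra k L] {M : ℕ}
    (ξ : Fin (M + 1) → L) (w : ℕ) : Prop :=
  GenAbundance k L w ∧ ∃ R : MvPolynomial (Fin (M + 1)) k, IsForm R ∧ val ξ R ≠ 0 ∧
    ∀ (E : Type) [Field E] [Algebra k E] (d : ℕ) (z : Fin (M + 1) → E), SubOf k ξ z →
      val z R ≠ 0 → 1 ≤ d → Algebra.trdeg k E = d → GenAbundance k E d

theorem strong_gen {k : Type} [Field k] [CharZero k] {L : Type} [Field L] [Algebra k L] {M : ℕ}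
    {ξ : Fin (M + 1) → L} {w : ℕ} (h1 : GeneralType k L w) (h2 : StronglyGeneral k ξ) :
    StrongGenAbundance k ξ w := by
  refine ⟨fun D hD b m hm h => Pool.Agent.N133.GA.big_of_psefSub h1 hD hm h, ?_⟩
  obtain ⟨R, hR, hR0, h⟩ := h2
  refine ⟨R, hR, hR0, fun E _ _ d z hz hzR hd hE D hD b m hm hb => ?_⟩
  exact Pool.Agent.N133.GA.big_of_psefSub (h E d z hz hzR hd hE) hD hm hb

/-- Let `k` be algebraically closed of characteristic `0` and `f` any family of maps with at most `r`
values from a projective variety `M` with generic point `ξ` to the varieties `X_m ⊆ P^N`, `m ≥ 2`, of
the points whose `m`-th powers are the values at `a 0, ..., a N` of a polynomial of degree at most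
`n`. Let `M ⇢ M₀` be the fibration defined by `f`: the function field of `M₀` is the smallest
subfield of the function field of `M`, algebraically closed in it, over which the values of all
reduced maps are algebraic. Let `dim M₀ ≤ s` and
`4 s r n + (s r n + s r (r - 1) + 1) ^ 2 < 2 (N + 1)`.

(1) If the reduced maps are jointly generically finite then generalised abundance holds for all
projective manifolds birational to `M`, and to all closed subvarieties of positive dimension of `M`
which are not contained in a proper closed subset of `M`: if `m A - K` is pseudo-effective for a
divisor `A` and some `m ≥ 1`, then `A` is big.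

(2) In general the same holds for all projective models of `M₀`, whose dimension is at least the
dimension of the image of each reduced map. -/
theorem result {k : Type} [Field k] [CharZero k] [IsAlgClosed k] {N n r s : ℕ} (hr : 1 ≤ r)
    (hs : 1 ≤ s) (hN : Bound N n r s) {a : Fin (N + 1) → k} (ha : Function.Injective a)
    {L : Type} [Field L] [Algebra k L] {M : ℕ} {ξ : Fin (M + 1) → L} (hξ : IsModel k ξ)
    {ι : Type} (f : ι → Corr k L a n r) {w : ℕ} (hw : Algebra.trdeg k (baseField f) = w)
    (hws : w ≤ s) :
    (JointlyFinite f → StrongGenAbundance k ξ w) ∧
    Universal f ∧ HasModel k (baseField f) ∧ (∀ i, Algebra.trdeg k (coords k (f i).red) ≤ w) ∧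
    ∀ (M0 : ℕ) (x : Fin (M0 + 1) → baseField f), IsModel k x → StrongGenAbundance k x w := by
  obtain ⟨h1, h2, h3, h4, h5, h6⟩ := lang_main hr hs hN ha hξ f hw hws
  exact ⟨fun h => strong_gen (h6 h).1 (h6 h).2, h1, h2, h4,
    fun M0 x hx => strong_gen h3 (h5 M0 x hx).1⟩

end Pool.Agent.Results.MP_1149f4_ag.MultivaluedGenAbundance
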