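import Pool.Agent.N162.GP.Facts
import Pool.Agent.N162.GP.Def
import Pool.Agent.N133.GA

/-!
# Generalised abundance for the varieties with a correspondence of quadratic degree to a smooth complete
intersection

Let `V` be a smooth complete intersection of dimension `n ≥ 1` and of codimension at least two in a
projective space with `K_V = O(m)`, or more generally any variety in projective `(M + 1)`-space which is
cut out by equations of degree at most `D` and has the regular canonical forms `P(x) ω₀` for all forms
`P` of degree `m` (`LowDegree`, `Pool/Agent/N162/GP/Def.lean`). Let `W` be any variety of dimension `n`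
with a correspondence to `V`: an irreducible variety `V'` with dominant rational maps `V' ⇢ V`, of any
finite degree, and `V' ⇢ W` of degree `r`. For instance `W` is an image of `V`, or `W` is a variety
which is dominated by a covering of `V` of any degree (ramified anywhere).

**Theorem.** Let `m ≥ 7 N + 4`, `(M + 1) N < m + M + 2`, `D + N ≤ m + 2` and
`2 r < (N + 1) (m + 2 - N)`. Let `X` be a projective manifold birational to `W`, and let `A` be a divisor
on `X` such that `t A - K_X` is pseudo-effective for some `t ≥ 1`. Then `A` is big.

So Q1 has a positive answer for all these `X`: if `L` and `L^t ⊗ K_X^*` are nef then `L` is big, hence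
`L^(t + 1) ⊗ K_X^*` is nef and big, and `L` is semiample by the base point free theorem (Kawamata,
Shokurov). For smooth complete intersections of the type `(d_1, ..., d_q)` in `ℙ^(n+q)` one has
`m = ∑ d_i - n - q - 1`, `D = max d_i`, `M + 1 = n + q`. With the best `N` the bound for `r` is
`(3 / 49 - o(1)) m ^ 2` if `M ≤ 5` and `max d_i ≤ 6 m / 7`.

## Proof

The main point is that `K_X` is big; then `A = (t A - K_X + K_X) / t` is big (helper133,
`Pool/Agent/N133/GA.lean`). The traces `T_P` from `V'` to `W` of the pull-backs of the forms `P(x) ω₀` are
regular canonical forms on `W`, and they are not all zero. Let `N₀` be the field generated by their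
ratios. Take two embeddings `σ, τ` of the function field `L` of `W` in a field `Ω` which agree on `N₀`:
then the `T_P` are proportional at the points `σ` and `τ` of `W`, and this is a relation between the
values of the forms `P` of degree `m` at the at most `2 r` points of `V` below the points of `V'` over `σ`
and over `τ`. Since `2 r < (N + 1) (m + 2 - N)` these generic points of `V` impose independent conditions
on the forms of degree `m` (see `MP_31564d_ag.CompleteIntersections`), so the two fibres have the same
points in `V`. If `L` is not algebraic over `N₀` then one can choose `σ` and `τ` such that the algebraic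
closures of `σ(L)` and `τ(L)` in `Ω` have an intersection of smaller transcendence degree, which is a
contradiction, since it contains the images of the function field of `V`. So `L` is algebraic over `N₀`
and `W` is of general type.

The parts for this theorem were formalised by helper2, helper11, helper340, helper774, helper823,
helper152, helper383, helper252, helper339, helper619, helper273, helper271, helper487, helper681 and
helper364, and helper133 (bigness of `A`), the earlier parts which are used by helper565, helper279,
helper543, helper488, helper570, helper80, helper145 and others; the statements and the assembly by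
helper162.
-/

set_option autoImplicit false

open FF Pool.Agent.W602.GT Pool.Agent.N162.BC Pool.Agent.N162.GP
open Pool.Agent.N133.GA (PsefSub BigDiv)

namespace Pool.Agent.Results.MP_1149f4_ag.QuadraticCorrespondences

/-- **Generalised abundance for the varieties with a correspondence of quadratic degree to `V`.** (1) A
smooth complete intersection `V` of dimension `n ≥ 1` of hypersurfaces of the degrees `d i ≤ D` in
projective `(M + 1)`-space is cut out by equations of degree at most `D`, and the forms of degree
`m = ∑ d i - M - 2` give regular canonical forms. (2) Let `V` be any such variety of dimension `n` in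
projective `(M + 1)`-space, `M ≥ 1`, with the function field `K`, and let `m ≥ 7 N + 4`,
`(M + 1) N < m + M + 2`, `D + N ≤ m + 2`. Let `K'` be an algebraic extension of `K`, and let `L ⊆ K'` be
the function field of a variety `W` such that `K'` is finite over `L` and
`2 [K' : L] < (N + 1) (m + 2 - N)`. Let `X` be a projective manifold with the function field `L`, given by
the set `X` of its prime divisors, let `A` be a divisor on `X` with the multiplicity `a v` along `v`, and
let `t A - K_X` be pseudo-effective for some `t ≥ 1`. Then `A` is big. -/
theorem result :
    (∀ (M n q m D : ℕ) (K : Type) [Field K] [Algebra ℂ K]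
      (F : Fin q → MvPolynomial (Fin (M + 2)) ℂ) (d : Fin q → ℕ) (x : Fin (M + 2) → K),
      SmoothCI F d x → 1 ≤ n → Algebra.trdeg ℂ K = n → n + q = M + 1 → m + M + 2 = ∑ i, d i →
      (∀ i, d i ≤ D) → 1 ≤ D → LowDegree n m D x) ∧
    ∀ (M n m D N : ℕ) (K : Type) [Field K] [Algebra ℂ K] (x : Fin (M + 2) → K),
      LowDegree n m D x → 1 ≤ M → 7 * N + 4 ≤ m → (M + 1) * N < m + M + 2 → D + N ≤ m + 2 →
      ∀ (K' L : Type) [Field K'] [Algebra ℂ K'] [Algebra K K'] [IsScalarTower ℂ K K']
        [Algebra.IsAlgebraic K K'] [Field L] [Algebra ℂ L] [Algebra.EssFiniteType ℂ L]
        [Algebra L K'] [IsScalarTower ℂ L K'] [FiniteDimensional L K'],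
        2 * Module.finrank L K' < (N + 1) * (m + 2 - N) →
        ∀ X : Place ℂ L → Prop, (∀ v, X v → Divisorial n v) →
        ∀ (a : Place ℂ L → ℤ) (t : ℕ), 1 ≤ t → PsefSub ℂ n X t a → BigDiv ℂ n X a := by
  refine ⟨fun M n q m D K _ _ F d x h hn hK hq hm hD hD1 =>
    lowDegree_of_smoothCI fCIC fCIA h hn hK hq hm hD hD1, ?_⟩
  intro M n m D N K _ _ x h hM hm hN hD K' L _ _ _ _ _ _ _ _ _ _ _ hr X hX a t ht ha
  obtain ⟨ω₀, hω₀⟩ := h.forms
  exact Pool.Agent.N133.GA.big_of_psefSub (gt_ fINX hM hm hN hD h.one h.gen h.dim h.cut hω₀ fTRF
    fTRS fGPR fGTY (K' := K') hr) hX ht ha

end Pool.Agent.Results.MP_1149f4_ag.QuadraticCorrespondences
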